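import Pool.Agent.Q2.LP.Five

set_option autoImplicit false

/-!
# MP_a1df92_al (negated form)

For the field `F` of four elements, `V = F^2` and the maximal subgroup `H` of monomial matrices, the
largest `n` with `(*_n)` is `n = 5`, and `L^5 V` restricted to `H` is neither completely reducible
nor uniserial.
-/

namespace Pool.Agent.Results.MP_a1df92_al.NotDichotomy

open Q2.LP

theorem result : ∃ (F : Type) (_ : Field F) (_ : Finite F) (V : Type) (_ : AddCommGroup V)
    (_ : Module F V) (_ : Module.Finite F V) (H : Subgroup (V ≃ₗ[F] V)) (n : ℕ),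
    IsCoatom H ∧ IsGreatest {m : ℕ | Star F V H m} n ∧
      ¬ ComplRed F V H (liePow F V n) ∧ ¬ Uniserial F V H (liePow F V n) := by
  classical
  have : Fact (Nat.Prime 2) := ⟨Nat.prime_two⟩
  have hcard : Nat.card (GaloisField 2 2) = 4 := by
    rw [GaloisField.card 2 2 (by norm_num)]; norm_num
  have : Fintype (GaloisField 2 2) := Fintype.ofFinite _
  have hcard' : Fintype.card (GaloisField 2 2) = 4 := by
    rw [← Nat.card_eq_fintype_card, hcard]
  have h3 : ∀ a : GaloisField 2 2, a ≠ 0 → a * a * a = 1 := by
    intro a ha
    have := FiniteField.pow_card_sub_one_eq_one a ha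
    rw [hcard'] at this
    rw [← this]; ring
  obtain ⟨ω, hω⟩ : ∃ ω : GaloisField 2 2, ω ^ 2 + ω + 1 = 0 := by
    by_contra hcon
    push Not at hcon
    have key : ∀ a : GaloisField 2 2, a = 0 ∨ a = 1 := by
      intro a
      by_cases ha : a = 0
      · exact Or.inl ha
      · right
        have h4 := h3 a ha
        have h5 : (a ^ 2 + a + 1) * (a - 1) = 0 := by linear_combination h4
        rcases mul_eq_zero.1 h5 with h6 | h6
        · exact absurd h6 (hcon a)
        · exact sub_eq_zero.1 h6
    have hle : Fintype.card (GaloisField 2 2) ≤ 2 := by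
      rw [← Finset.card_univ]
      refine (Finset.card_le_card (t := {0, 1}) ?_).trans Finset.card_le_two
      intro a _
      rcases key a with h | h <;> simp [h]
    omega
  exact ⟨GaloisField 2 2, inferInstance, inferInstance, Pl (GaloisField 2 2), inferInstance,
    inferInstance, inferInstance, Mono (GaloisField 2 2), 5, Mono_coatom,
    ⟨star_five hω, fun m hm => not_star hω m hm⟩, L5_not_complRed hω h3, L5_not_uniserial hω h3⟩

end Pool.Agent.Results.MP_a1df92_al.NotDichotomy
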